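import Mathlib
import Pool.Agent.CpDisc.Own

set_option autoImplicit false

universe u v

open Topology Set

namespace Pool.Agent.Results.MP_c5d79e_gt.DenseInCantorCube

/-- `C_p(X)`: the continuous real functions on `X`, topologised as a subspace of `ℝ ^ X`. -/
abbrev Cp (X : Type u) [TopologicalSpace X] : Type u := {f : X → ℝ // Continuous f}

/-- Realcompact: homeomorphic to a closed subspace of a power of `ℝ`. -/
def IsRealcompact (Z : Type u) [TopologicalSpace Z] : Prop :=
  ∃ (κ : Type u) (g : Z → κ → ℝ), IsClosedEmbedding g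

/-- There is a dense subspace `X` of a Cantor cube `{0,1} ^ E` such that the closure in `C_p(X)` of
every discrete subset of `C_p(X)` is realcompact, while `C_p(X)` is not homeomorphic to a closed
subspace of any power of `ℝ`. -/
theorem result : ∃ (E : Type u) (X : Set (E → Bool)), Dense X ∧
    (∀ D : Set (Cp X), DiscreteTopology D → IsRealcompact (closure D)) ∧
    ∀ (κ : Type v) (g : Cp X → κ → ℝ), ¬ IsClosedEmbedding g :=
  ⟨CpDisc.EE.{u}, CpDisc.XS.{u}, CpDisc.dense_XS,
    fun D hD => CpDisc.closure_subtype D hD,
    fun κ g hg => CpDisc.not_isClosedEmbedding' CpDisc.phi.{u} CpDisc.not_continuous_phi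
      CpDisc.phi_agree κ g hg⟩

end Pool.Agent.Results.MP_c5d79e_gt.DenseInCantorCube
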